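import Mathlib
import Pool.Agent.Helper47.Zero.Defs

/-!
# Symmetric sections: the definitions used in the statements
-/

universe u v w

open CategoryTheory AlgebraicGeometry Limits

namespace Pool.Agent.Helper47.Zero

open Pool.Agent.Helper10 Pool.Agent.Helper10.SmProjVar Pool.Agent.Helper47.Chow
open Pool.Agent.Helper47.Desc

noncomputable section

section Geometry

variable {Y : Scheme.{u}} {r : ℕ} {I : Type} {K : Type u} [Field K]

/-- The point `y` of `X × X` lies on the subvariety `{(f x, x)}`. -/
def OnGraph {X : SmProjVar K} (f : X.toOver ⟶ X.toOver) (y : (X.prod X).Pt) : Prop :=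
  ∃ x : X.Pt, img (lift f (𝟙 X.toOver)).left x = y

/-- Any two points `x`, `x'` of `X` with `x ≠ f i x'` for all `i` impose (through the morphism
`π : X ⟶ Y`) `2 r` independent conditions on the combinations of the sections. -/
def SeparatesUpTo (S : Sections Y r I) (X : SmProjVar K) (π : X.toOver.left ⟶ Y) {Γ : Type}
    (f : Γ → (X.toOver ⟶ X.toOver)) : Prop :=
  ∀ y : (X.prod X).Pt, (¬ ∃ i, OnGraph (f i) y) →
    SeparatesAt S ((fst X X).left ≫ π) ((snd X X).left ≫ π) y

end Geometry

section Chow

variable {K : Type u} [Field K] {L : Type v} [Field L] [CharZero L]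
  {W : WeilCohomology.{u, v, w} K L} (C : ChowTheory W)

/-- The class of the subvariety `{(f x, x)}` of `X × X`. -/
def graphCls {X : SmProjVar K} (f : X.toOver ⟶ X.toOver) : CH (X.prod X) :=
  C.ops.push (lift f (𝟙 X.toOver)) (one X)

/-- `γ` is the restriction to `X × X` of a class on `M × M` of codimension `dim X`. -/
def IsRestriction {X M : SmProjVar K} (j : X.toOver ⟶ M.toOver) (γ : CH (X.prod X)) : Prop :=
  ∃ z ∈ CHi (M.prod M) X.dim, γ = C.ops.pull (lift (fst X X ≫ j) (snd X X ≫ j)) z

/-- The combination `∑ c i (f i)^* x`. -/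
def pullComb (W : WeilCohomology.{u, v, w} K L) {X : SmProjVar K} {Γ : Type} [Fintype Γ]
    (f : Γ → (X.toOver ⟶ X.toOver)) (c : Γ → ℚ) (x : W.H X) : W.H X :=
  ∑ i, (c i : L) • W.pull (f i) x

/-- Every relation between the operators `(f i)^*` on `H(X) / H(M)` comes from a restriction of a
class on `M × M`. -/
def RelationsRestrict {X M : SmProjVar K} (j : X.toOver ⟶ M.toOver) {Γ : Type} [Fintype Γ]
    (f : Γ → (X.toOver ⟶ X.toOver)) : Prop :=
  ∀ c : Γ → ℚ, (∀ x : W.H X, ∃ m : W.H M, W.pull j m = pullComb W f c x) →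
    IsRestriction C j (∑ i, c i • graphCls C (f i))

/-- The motive of `Y` is a direct summand of a Tate twist of the motive of `X`: there are
correspondences `u ∈ CH^p(X × Y)`, `v ∈ CH^q(Y × X)`, `p + q = dim X + dim Y`, such that the
composition `Y → X → Y` is the identity. -/
def IsSummand (X Y : SmProjVar K) : Prop :=
  ∃ p q : ℕ, p + q = X.dim + Y.dim ∧ ∃ u ∈ CHi (X.prod Y) p, ∃ v ∈ CHi (Y.prod X) q,
    C.comp v u = C.Δ Y

/-- There are a morphism `g : X ⟶ Y` and a class `h ∈ CH^e(X)`, `e = dim X - dim Y`, such that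
`g_* h` is the class of `Y`; with rational coefficients this holds for every surjective `g`. -/
def Dominates (X Y : SmProjVar K) : Prop :=
  ∃ (g : X.toOver ⟶ Y.toOver) (e : ℕ), X.dim = Y.dim + e ∧ ∃ h ∈ CHi X e,
    C.ops.push g h = one Y

end Chow

end

end Pool.Agent.Helper47.Zero
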