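import Mathlib
import Pool.Agent.Helper47.Sym.Defs
import Pool.Agent.Helper47.Zero.Bridge
import Pool.Agent.Helper47.Spread2.Final2

/-!
# Graphs of endomorphisms
-/

universe u v w

open CategoryTheory AlgebraicGeometry Limits

namespace Pool.Agent.Helper47.Sym

open Pool.Agent.Helper10 Pool.Agent.Helper10.SmProjVar Pool.Agent.Helper47.Chow
open Pool.Agent.Helper47.Desc Pool.Agent.Helper11.Murre Pool.Agent.Helper47.Spread

noncomputable section

section Sep

variable {F : Type u} [Field F] {M₀ : SmProjVar F} {r : ℕ} {I : Type}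

/-- The separation property for points of a scheme over `M₀ × M₀`. -/
lemma sepAt_of_separatesAt (S : Zero.Sections M₀.toOver.left r I) {P : Scheme.{u}}
    (q : P ⟶ (M₀.prod M₀).toOver.left) (y : P)
    (h : Zero.SeparatesAt S (q ≫ (fst M₀ M₀).left) (q ≫ (snd M₀ M₀).left) y) :
    SepAt S.old (q y) := by
  obtain ⟨i, i', J, hJ⟩ := h
  refine ⟨i, i', J, ?_⟩
  have h1 : y ∈ q ⁻¹ᵁ (M₀.prod M₀).toOver.left.basicOpen (minorAt S.old i i' J) := by
    rw [Scheme.preimage_basicOpen]
    have h2 : (q.app (box S.old i i')).hom (minorAt S.old i i' J) =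
        Zero.det (fun c c' => Zero.coord S (q ≫ (fst M₀ M₀).left) (q ≫ (snd M₀ M₀).left)
          i i' c (J c')) := by
      change (q.app (box S.old i i')).hom (Matrix.det (Matrix.of fun c c' =>
        coef S.old i i' c (J c'))) = Matrix.det (Matrix.of fun c c' =>
          Zero.coord S (q ≫ (fst M₀ M₀).left) (q ≫ (snd M₀ M₀).left) i i' c (J c'))
      rw [RingHom.map_det]
      congr 1
      ext c c'
      rcases c with c | c
      · change (q.app (box S.old i i')).hom
          (((M₀.prod M₀).toOver.left.presheaf.map (homOfLE inf_le_left).op).hom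
            (((fst M₀ M₀).left.app (S.U i)).hom (S.f i c (J c')))) =
          (P.presheaf.map (homOfLE (inf_le_left : (q ≫ (fst M₀ M₀).left) ⁻¹ᵁ S.U i ⊓
            (q ≫ (snd M₀ M₀).left) ⁻¹ᵁ S.U i' ≤ (q ≫ (fst M₀ M₀).left) ⁻¹ᵁ S.U i)).op).hom
            (((q ≫ (fst M₀ M₀).left).app (S.U i)).hom (S.f i c (J c')))
        have h3 := q.naturality (homOfLE (inf_le_left :
          box S.old i i' ≤ (fst M₀ M₀).left ⁻¹ᵁ S.U i)).op
        have h4 := congrArg (fun t => t.hom (((fst M₀ M₀).left.app (S.U i)).hom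
          (S.f i c (J c')))) h3
        refine h4.trans ?_
        rw [Scheme.Hom.comp_app]
        rfl
      · change (q.app (box S.old i i')).hom
          (((M₀.prod M₀).toOver.left.presheaf.map (homOfLE inf_le_right).op).hom
            (((snd M₀ M₀).left.app (S.U i')).hom (S.f i' c (J c')))) =
          (P.presheaf.map (homOfLE (inf_le_right : (q ≫ (fst M₀ M₀).left) ⁻¹ᵁ S.U i ⊓
            (q ≫ (snd M₀ M₀).left) ⁻¹ᵁ S.U i' ≤ (q ≫ (snd M₀ M₀).left) ⁻¹ᵁ S.U i')).op).hom
            (((q ≫ (snd M₀ M₀).left).app (S.U i')).hom (S.f i' c (J c')))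
        have h3 := q.naturality (homOfLE (inf_le_right :
          box S.old i i' ≤ (snd M₀ M₀).left ⁻¹ᵁ S.U i')).op
        have h4 := congrArg (fun t => t.hom (((snd M₀ M₀).left.app (S.U i')).hom
          (S.f i' c (J c')))) h3
        refine h4.trans ?_
        rw [Scheme.Hom.comp_app]
        rfl
    rw [h2]
    exact hJ
  exact h1

end Sep

section Graph

variable {K : Type u} [Field K]

/-- The morphism `x ↦ (f x, x)`. -/
def gr {X : SmProjVar K} (f : X.toOver ⟶ X.toOver) : X.toOver ⟶ (X.prod X).toOver :=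
  lift f (𝟙 X.toOver)

lemma gr_snd {X : SmProjVar K} (f : X.toOver ⟶ X.toOver) :
    (gr f).left ≫ (snd X X).left = 𝟙 X.toOver.left := by
  have h : gr f ≫ snd X X = 𝟙 X.toOver := lift_snd _ _
  exact congrArg CommaMorphism.left h

lemma gr_fst {X : SmProjVar K} (f : X.toOver ⟶ X.toOver) :
    (gr f).left ≫ (fst X X).left = f.left := by
  have h : gr f ≫ fst X X = f := lift_fst _ _
  exact congrArg CommaMorphism.left h

lemma pointDim_gr {X : SmProjVar K} (f : X.toOver ⟶ X.toOver) (x : X.toOver.left) :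
    (X.prod X).pointDim ((gr f).left x) = X.pointDim x := by
  refine congrArg Cardinal.toNat (le_antisymm (trd_le_of_hom (gr f) x) ?_)
  have h := trd_le_of_hom (snd X X) ((gr f).left x)
  have h1 : (snd X X).left ((gr f).left x) = x := by
    have h : ((gr f).left ≫ (snd X X).left) x = x := by
      rw [gr_snd]
      rfl
    exact h
  rwa [h1] at h

variable {L : Type v} [Field L] [CharZero L]

lemma eq_gr_genericPt (W : WeilCohomology.{u, v, w} K L) {X : SmProjVar K}
    (f : X.toOver ⟶ X.toOver) (y : (X.prod X).toOver.left) (hy : y ∈ Set.range (gr f).left)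
    (hd : (X.prod X).pointDim y = X.dim) : y = (gr f).left X.genericPt := by
  obtain ⟨x, rfl⟩ := hy
  have hx : x = X.genericPt := by
    by_contra hne
    have h1 := pointDim_lt_of_ne_genericPt X x hne
    rw [pointDim_genericPt W X, ← pointDim_gr f x, hd] at h1
    exact lt_irrefl _ h1
  rw [hx]

variable {W : WeilCohomology.{u, v, w} K L}

theorem ptCls_mem_span_gr (C : ChowTheory W) {X : SmProjVar K} (f : X.toOver ⟶ X.toOver)
    (y : (X.prod X).toOver.left) (hy : y ∈ Set.range (gr f).left)
    (hd : (X.prod X).pointDim y = X.dim) :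
    ptCls (X.prod X) y ∈ Submodule.span ℚ {Zero.graphCls C f} := by
  have hy' := eq_gr_genericPt W f y hy hd
  subst hy'
  have h1 : Zero.graphCls C f = ((gr f).left.residueDegree X.genericPt : ℚ) •
      ptCls (X.prod X) ((gr f).left X.genericPt) := by
    have h2 := C.pushForward.push_ptCls (gr f) X.genericPt
    rw [if_pos (pointDim_gr f X.genericPt).symm] at h2
    exact h2
  have h3 : ((gr f).left.residueDegree X.genericPt : ℚ) ≠ 0 := by
    exact_mod_cast residueDegree_ne_zero_of_surjective _ _
      (residueFieldMap_surjective_of_retract _ _ (gr_snd f) _)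
  rw [Submodule.mem_span_singleton]
  refine ⟨((gr f).left.residueDegree X.genericPt : ℚ)⁻¹, ?_⟩
  rw [h1, smul_smul, inv_mul_cancel₀ h3, one_smul]

lemma graphCls_mem (C : ChowTheory W) {X : SmProjVar K} (f : X.toOver ⟶ X.toOver) :
    Zero.graphCls C f ∈ CHi (X.prod X) X.dim := by
  refine C.push_mem _ 0 X.dim ?_ _ (ChowTheory.one_mem_iff (pointDim_genericPt W X))
  change 0 + (X.dim + X.dim) = X.dim + X.dim
  omega

lemma sq_gr {X : SmProjVar K} (f : X.toOver ⟶ X.toOver) (g : SemiAut X)
    (hg : g.sch ≫ f.left = f.left ≫ g.sch) :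
    (gr f).left ≫ (Desc.sq g).sch = g.sch ≫ (gr f).left := by
  have h0 : (Desc.sq g).sch = prodSch g g rfl := rfl
  apply hom_ext_sch
  · rw [Category.assoc, h0, prodSch_fst, ← Category.assoc, gr_fst, Category.assoc, gr_fst, hg]
  · rw [Category.assoc, h0, prodSch_snd, ← Category.assoc, gr_snd, Category.assoc, gr_snd,
      Category.id_comp, Category.comp_id]

lemma genericPt_pt {X : SmProjVar K} (g : SemiAut X) : g.pt X.genericPt = X.genericPt := by
  by_contra hne
  have h1 := pointDim_lt_of_ne_genericPt X _ hne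
  rw [pointDim_pt] at h1
  exact lt_irrefl _ h1

lemma chow_graphCls {C : ChowTheory W} (hC : IsEquivariant C) {X : SmProjVar K}
    (f : X.toOver ⟶ X.toOver) (g : SemiAut X) (hg : g.sch ≫ f.left = f.left ≫ g.sch) :
    (Desc.sq g).chow (Zero.graphCls C f) = Zero.graphCls C f := by
  have h1 := hC.push g (Desc.sq g) (gr f) rfl (sq_gr f g hg) (one X)
  have h2 : g.chow (one X) = one X := by
    change g.chow (ptCls X X.genericPt) = ptCls X X.genericPt
    rw [chow_ptCls, genericPt_pt]
  rw [h2] at h1
  exact h1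

end Graph

section Comm

variable {F K : Type u} [Field F] [Field K] [Algebra F K] {M₀ : SmProjVar F} {r : ℕ} {I : Type}
  [Fintype I]

/-- The automorphisms over `M₀` commute with the endomorphisms induced from `M₀`. -/
lemma comm_of_base {S : Spread.Sections M₀ r I} {a : I → K} {X : SmProjVar K}
    {π : X.toOver.left ⟶ M₀.toOver.left} (hX : Spread.IsZeroLocus S a X π)
    (f : X.toOver ⟶ X.toOver) (f₀ : M₀.toOver.left ⟶ M₀.toOver.left)
    (hf : f.left ≫ π = π ≫ f₀) (g : SemiAut X) (hg : g.sch ≫ π = π) :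
    g.sch ≫ f.left = f.left ≫ g.sch := by
  apply hX.unique
  · rw [Category.assoc, hf, ← Category.assoc, hg, Category.assoc, hg, hf]
  · rw [Category.assoc, Over.w f, g.sch_hom, Category.assoc, g.sch_hom, ← Category.assoc,
      Over.w f]

end Comm

end

end Pool.Agent.Helper47.Sym
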