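import Mathlib
import Pool.Agent.Helper47.Sym.A

/-!
# Invariant correspondences on the zero locus of a generic symmetric section
-/

universe u v w

open CategoryTheory AlgebraicGeometry Limits

namespace Pool.Agent.Helper47.Sym

open Pool.Agent.Helper10 Pool.Agent.Helper10.SmProjVar Pool.Agent.Helper47.Chow
open Pool.Agent.Helper47.Desc Pool.Agent.Helper11.Murre Pool.Agent.Helper47.Spread

noncomputable section

variable {F K : Type u} [Field F] [Field K] [Algebra F K] {M₀ : SmProjVar F} {r : ℕ} {I : Type}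
  [Fintype I] {L : Type v} [Field L] [CharZero L] {W : WeilCohomology.{u, v, w} K L}

/-- The combinations of the classes of the graphs of the `f i` and of the restrictions
`(j × j)^* z` with `z ∈ CH^d(M × M)`, `d = dim X`. -/
def goodS (C : ChowTheory W) {X M : SmProjVar K} (j : X.toOver ⟶ M.toOver) {Γ : Type}
    (f : Γ → (X.toOver ⟶ X.toOver)) : Submodule ℚ (CH (X.prod X)) :=
  Submodule.span ℚ ({γ | ∃ i, γ = Zero.graphCls C (f i)} ∪
    {γ | ∃ z ∈ CHi (M.prod M) X.dim, γ = C.ops.pull (sqHom j) z})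

lemma goodS_stable {C : ChowTheory W} (hC : IsEquivariant C) {M X : SmProjVar K}
    (pM : M.toOver.left ⟶ M₀.toOver.left)
    (hM : IsPullback pM M.toOver.hom M₀.toOver.hom (specMap F K)) (j : X.toOver ⟶ M.toOver)
    {Γ : Type} (f : Γ → (X.toOver ⟶ X.toOver)) (a : I → K) (g : SemiAut X)
    (hg : g ∈ galGroup (F := F) a (j.left ≫ pM))
    (hgf : ∀ i, g.sch ≫ (f i).left = (f i).left ≫ g.sch)
    (γ : CH (X.prod X)) (hγ : γ ∈ goodS C j f) : (Desc.sq g).chow γ ∈ goodS C j f := by
  obtain ⟨h, hb, hc⟩ := exists_semiAut_base pM hM j a g hg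
  unfold goodS at hγ ⊢
  refine Submodule.span_induction (p := fun γ _ => (Desc.sq g).chow γ ∈ Submodule.span ℚ
    ({γ | ∃ i, γ = Zero.graphCls C (f i)} ∪
      {γ | ∃ z ∈ CHi (M.prod M) X.dim, γ = C.ops.pull (sqHom j) z})) ?_ ?_ ?_ ?_ hγ
  · rintro γ (⟨i, rfl⟩ | ⟨z, hz, rfl⟩)
    · rw [chow_graphCls hC (f i) g (hgf i)]
      exact Submodule.subset_span (Or.inl ⟨i, rfl⟩)
    · rw [hC.pull (Desc.sq g) h (sqHom j) hb hc]
      exact Submodule.subset_span (Or.inr ⟨_, chow_mem h _ _ hz, rfl⟩)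
  · rw [map_zero]
    exact Submodule.zero_mem _
  · intro x y _ _ hx hy
    rw [map_add]
    exact Submodule.add_mem _ hx hy
  · intro q x _ hx
    rw [map_smul]
    exact Submodule.smul_mem _ _ hx

/-- The generic point of the graph is invariant. -/
lemma sq_gr_apply (W : WeilCohomology.{u, v, w} K L) {X : SmProjVar K} (f : X.toOver ⟶ X.toOver)
    (g : SemiAut X) (hg : g.sch ≫ f.left = f.left ≫ g.sch) (y : (X.prod X).toOver.left)
    (hy : y ∈ Set.range (gr f).left) (hd : (X.prod X).pointDim y = X.dim) :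
    (Desc.sq g).sch y = y := by
  rw [eq_gr_genericPt W f y hy hd]
  have h1 : (Desc.sq g).sch ((gr f).left X.genericPt) = (gr f).left (g.sch X.genericPt) := by
    rw [← Scheme.Hom.comp_apply, sq_gr f g hg, Scheme.Hom.comp_apply]
  rw [h1]
  exact congrArg _ (genericPt_pt g)

/-- Classes of cycles with generic points. -/
theorem mem_goodS_of_generic [IsAlgClosed K] {S : Spread.Sections M₀ r I}
    {a : I → K} (ha : AlgebraicIndependent F a)
    {M X : SmProjVar K} (pM : M.toOver.left ⟶ M₀.toOver.left)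
    (hM : IsPullback pM M.toOver.hom M₀.toOver.hom (specMap F K)) (j : X.toOver ⟶ M.toOver)
    [IsClosedImmersion j.left] (hX : Spread.IsZeroLocus S a X (j.left ≫ pM))
    (hdim : M.dim = X.dim + r) {Γ : Type} (f : Γ → (X.toOver ⟶ X.toOver))
    (f₀ : Γ → (M₀.toOver.left ⟶ M₀.toOver.left))
    (hf : ∀ i, (f i).left ≫ j.left ≫ pM = (j.left ≫ pM) ≫ f₀ i)
    (B : Set (M₀.prod M₀).toOver.left) (hB : ∀ x, x ∉ B → SepAt S x)
    (hgr : ∀ y : (X.prod X).toOver.left, theta (j.left ≫ pM) hX.w y ∈ B →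
      ∃ i, y ∈ Set.range (gr (f i)).left)
    {C : ChowTheory W} (hC : IsEquivariant C) (hS : Spread.HasSupport C) (z : QCycles (X.prod X))
    (hz : ∀ y, z.coeff y ≠ 0 → (X.prod X).pointDim y = X.dim ∧
      (theta (j.left ≫ pM) hX.w y ∉ B → IsGen a (theta (j.left ≫ pM) hX.w) y))
    (hinv : ∀ g ∈ galGroup (F := F) a (j.left ≫ pM), (Desc.sq g).chow (cls (X.prod X) z) =
      cls (X.prod X) z) :
    cls (X.prod X) z ∈ goodS C j f := by
  classical
  have hA : IsAffineHom (j.left ≫ pM) := isAffineHom_comp pM hM j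
  let π := j.left ≫ pM
  let G := galGroup (F := F) a π
  let θ := theta π hX.w
  let Y := X.prod X
  let N := M₀.prod M₀
  have hcomm : ∀ g ∈ galGroup (F := F) a (j.left ≫ pM), ∀ i,
      g.sch ≫ (f i).left = (f i).left ≫ g.sch := fun g hg i =>
    comm_of_base hX (f i) (f₀ i) (hf i) g hg.1
  refine mem_of_invariant (r := r) ha hX B
    (fun x hx => hasChart_of_sepAt hX x (hB x hx)) (goodS C j f)
    (fun g hg γ hγ => goodS_stable hC pM hM j f a g hg (hcomm g hg) γ hγ) X.dim ?_ ?_ z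
    hz hinv
  · intro y hy hx
    obtain ⟨i, h1⟩ := hgr y hx
    refine ⟨?_, fun g hg => sq_gr_apply W (f i) g (hcomm g hg i) y h1 hy⟩
    have h2 := ptCls_mem_span_gr C (f i) y h1 hy
    refine Submodule.span_mono ?_ h2
    rintro _ rfl
    exact Or.inl ⟨i, rfl⟩
  · intro y hy hx h2 hfin h3
    obtain ⟨t, ht1, ht2, ht3⟩ := exists_generization (theta pM hM.w) (isPullback_prod pM hM)
      ((sqHom j).left y)
    have hst : ∀ y' : Y.toOver.left, theta pM hM.w ((sqHom j).left y') = θ y' :=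
      fun y' => sqHom_theta_apply pM hM.w j hX.w y'
    replace ht2 : theta pM hM.w t = θ y := ht2.trans (hst y)
    replace ht3 : (M.prod M).pointDim t = N.pointDim (θ y) :=
      ht3.trans (congrArg N.pointDim (hst y))
    obtain ⟨D, hD1, hD2, hD3⟩ := hS.pull_support (sqHom j) t
    have hdimM : (M.prod M).dim = M.dim + M.dim := rfl
    have hdimX : (X.prod X).dim = X.dim + X.dim := rfl
    have hpt : (M.prod M).pointDim t = X.dim + 2 * r := by
      rw [ht3]
      change (X.prod X).pointDim y + 2 * r = N.pointDim (θ y) at h2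
      rw [← h2, hy]
    have hstar : ∀ y' : Y.toOver.left, t ⤳ (sqHom j).left y' → θ y ⤳ θ y' := by
      intro y' h
      have h5 := h.map (theta pM hM.w).continuous
      rw [ht2, show theta pM hM.w ((sqHom j).left y') = θ y' from hst y'] at h5
      exact h5
    have hmin : ∀ g ∈ G, ∀ x' : Y.toOver.left, x' ⤳ (Desc.sq g).sch y →
        t ⤳ (sqHom j).left x' → x' = (Desc.sq g).sch y := by
      intro g hg x' hx'1 hx'2
      have h5 : θ ((Desc.sq g).sch y) = θ y := theta_sq_apply a π hX.w g hg y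
      have h6 : θ x' = θ y := by
        have h7 := hx'1.map θ.continuous
        rw [h5] at h7
        exact (h7.antisymm (hstar x' hx'2)).eq
      have h8 : (Desc.sq g)⁻¹.sch x' ⤳ y := by
        have h9 := hx'1.map (Desc.sq g)⁻¹.sch.continuous
        rwa [show (Desc.sq g)⁻¹.sch ((Desc.sq g).sch y) = y from
          SemiAut.pt_inv_pt (Desc.sq g) y] at h9
      have h10 : θ ((Desc.sq g)⁻¹.sch x') = θ y := by
        rw [← h6, sq_inv_eq]
        exact theta_sq_apply a π hX.w g⁻¹ (G.inv_mem hg) x'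
      have h12 := (h3 _ h10).2 h8
      rw [← h12]
      exact (SemiAut.pt_pt_inv (Desc.sq g) x').symm
    have hpos : ∀ g ∈ G, t ⤳ (sqHom j).left ((Desc.sq g).sch y) →
        0 < D.coeff ((Desc.sq g).sch y) := by
      intro g hg ht
      refine hD3 _ ht (hmin g hg) ?_
      have h5 : (X.prod X).pointDim ((Desc.sq g).sch y) = (X.prod X).pointDim y :=
        pointDim_pt (Desc.sq g) y
      rw [h5, hy, hpt]
      omega
    refine ⟨D, ?_, ?_, fun g hg => ?_, fun y' hy' => ?_⟩
    · rw [hD1]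
      refine Submodule.subset_span (Or.inr ⟨_, ?_, rfl⟩)
      refine ptCls_mem_CHi' t ?_
      omega
    · have h5 := hpos 1 G.one_mem
      rw [sq_one] at h5
      exact h5 ht1
    · by_cases h5 : D.coeff ((Desc.sq g).sch y) = 0
      · exact h5.ge
      · exact (hpos g hg (hD2 _ h5).1).le
    · obtain ⟨h5, h6⟩ := hD2 y' hy'
      exact ⟨by omega, hstar y' h5⟩

/-- **Spreading** for symmetric sections over an algebraically closed field. -/
theorem mem_goodS [IsAlgClosed K] {S : Spread.Sections M₀ r I}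
    {a : I → K} (ha : AlgebraicIndependent F a)
    {M X : SmProjVar K} (pM : M.toOver.left ⟶ M₀.toOver.left)
    (hM : IsPullback pM M.toOver.hom M₀.toOver.hom (specMap F K)) (j : X.toOver ⟶ M.toOver)
    [IsClosedImmersion j.left] (hX : Spread.IsZeroLocus S a X (j.left ≫ pM))
    (hdim : M.dim = X.dim + r) {Γ : Type} (f : Γ → (X.toOver ⟶ X.toOver))
    (f₀ : Γ → (M₀.toOver.left ⟶ M₀.toOver.left))
    (hf : ∀ i, (f i).left ≫ j.left ≫ pM = (j.left ≫ pM) ≫ f₀ i)
    (hgr : ∀ y : (X.prod X).toOver.left, ¬ SepAt S (theta (j.left ≫ pM) hX.w y) →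
      ∃ i, y ∈ Set.range (gr (f i)).left)
    {C : ChowTheory W} (hC : IsEquivariant C) (hS : Spread.HasSupport C) (γ : CH (X.prod X))
    (hγ : γ ∈ CHi (X.prod X) X.dim)
    (hinv : ∀ g ∈ galGroup (F := F) a (j.left ≫ pM), (Desc.sq g).chow γ = γ) :
    γ ∈ goodS C j f := by
  have hA : IsAffineHom (j.left ≫ pM) := isAffineHom_comp pM hM j
  obtain ⟨z, hz, rfl⟩ := hγ
  obtain ⟨m, b, hb, hba, hgen⟩ := exists_generic_family ha hX z
  have hX' := isZeroLocus_extend hX m b hba
  refine mem_goodS_of_generic hb pM hM j hX' hdim f f₀ hf {x | ¬ SepAt S x}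
    (fun x hx => sepAt_extend (not_not.mp hx) m) (fun y hy => hgr y hy) hC hS z
    (fun y hy => ⟨?_, fun h => hgen y hy (not_not.mp h)⟩)
    (fun g hg => hinv g (galGroup_extend hba hg))
  have h1 := hz y hy
  have h2 : (X.prod X).dim = X.dim + X.dim := rfl
  omega

end

end Pool.Agent.Helper47.Sym
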