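import Mathlib
import Pool.Agent.Helper47.Sym.B
import Pool.Agent.Helper11.Murre.S1

/-!
# Nilpotence for the zero loci of generic symmetric sections
-/

universe u v w

open CategoryTheory AlgebraicGeometry Limits

namespace Pool.Agent.Helper47.Sym

open Pool.Agent.Helper10 Pool.Agent.Helper10.SmProjVar Pool.Agent.Helper47.Chow
open Pool.Agent.Helper47.Desc Pool.Agent.Helper11.Murre Pool.Agent.Helper47.Spread

noncomputable section

section Rel

variable {K : Type u} [Field K] {L : Type v} [Field L] [CharZero L]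
  {W : WeilCohomology.{u, v, w} K L} {C : ChowTheory W} {X M : SmProjVar K}

lemma hAct_smul_left {Y : SmProjVar K} (q : ℚ) (z : CH (X.prod Y)) (x : W.H X) :
    hAct C (q • z) x = (q : L) • hAct C z x := by
  apply eq_of_tr
  intro y
  rw [tr_hAct, pairH_smul, smul_mul_assoc, (W.trace Y).map_smul, tr_hAct]

lemma hAct_graphCls (f : X.toOver ⟶ X.toOver) (x : W.H X) :
    hAct C (Zero.graphCls C f) x = W.pull f x := hAct_graphT f x

/-- The elements of `goodS`. -/
lemma exists_of_mem_goodS {j : X.toOver ⟶ M.toOver} {Γ : Type} [Fintype Γ]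
    {f : Γ → (X.toOver ⟶ X.toOver)} {γ : CH (X.prod X)} (h : γ ∈ goodS C j f) :
    ∃ c : Γ → ℚ, ∃ z ∈ CHi (M.prod M) X.dim,
      γ = ∑ i, c i • Zero.graphCls C (f i) + C.pull (sqHom j) z := by
  classical
  unfold goodS at h
  refine Submodule.span_induction (p := fun γ _ => ∃ c : Γ → ℚ, ∃ z ∈ CHi (M.prod M) X.dim,
      γ = ∑ i, c i • Zero.graphCls C (f i) + C.pull (sqHom j) z) ?_ ?_ ?_ ?_ h
  · rintro γ (⟨i, rfl⟩ | ⟨z, hz, rfl⟩)
    · refine ⟨Pi.single i 1, 0, (CHiL (M.prod M) X.dim).zero_mem, ?_⟩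
      rw [map_zero, add_zero, Finset.sum_eq_single i]
      · rw [Pi.single_eq_same, one_smul]
      · intro i' _ hi'
        rw [Pi.single_eq_of_ne hi', zero_smul]
      · intro hi
        exact absurd (Finset.mem_univ i) hi
    · refine ⟨0, z, hz, ?_⟩
      rw [Finset.sum_eq_zero (fun i _ => by rw [Pi.zero_apply, zero_smul]), zero_add]
      rfl
  · refine ⟨0, 0, (CHiL (M.prod M) X.dim).zero_mem, ?_⟩
    rw [Finset.sum_eq_zero (fun i _ => by rw [Pi.zero_apply, zero_smul]), zero_add, map_zero]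
  · rintro _ _ _ _ ⟨c, z, hz, rfl⟩ ⟨c', z', hz', rfl⟩
    refine ⟨c + c', z + z', (CHiL (M.prod M) X.dim).add_mem hz hz', ?_⟩
    have h1 : ∑ i, (c + c') i • Zero.graphCls C (f i) =
        ∑ i, c i • Zero.graphCls C (f i) + ∑ i, c' i • Zero.graphCls C (f i) := by
      rw [← Finset.sum_add_distrib]
      exact Finset.sum_congr rfl fun i _ => by rw [Pi.add_apply, add_smul]
    rw [map_add, h1]
    abel
  · rintro q _ _ ⟨c, z, hz, rfl⟩
    refine ⟨q • c, q • z, (CHiL (M.prod M) X.dim).smul_mem q hz, ?_⟩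
    rw [map_smul, smul_add, Finset.smul_sum]
    congr 1
    refine Finset.sum_congr rfl fun i _ => ?_
    rw [Pi.smul_apply, smul_eq_mul, mul_smul]

/-- The correspondences `(j × j)^* z` act on `H(X)` with values in the image of `H(M)`. -/
lemma exists_pull_of_restriction (j : X.toOver ⟶ M.toOver) (z : CH (M.prod M))
    (hz : z ∈ CHi (M.prod M) X.dim) (x : W.H X) :
    ∃ m : W.H M, W.pull j m = hAct C (C.ops.pull (sqHom j) z) x := by
  have h1 : C.ops.pull (sqHom j) z = C.comp (C.comp (graph C j) z) (graphT C j) := pull_sq C j z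
  have h2 : C.comp (graph C j) z ∈ CHi (X.prod M) X.dim :=
    comp_mem' C _ _ (graph_mem j) hz (by omega)
  rw [h1, hAct_comp C _ _ h2 (graphT_mem j) (l := X.dim) rfl, hAct_graphT]
  exact ⟨_, rfl⟩

/-- A homologically trivial element of `goodS` is a restriction. -/
theorem exists_restriction {j : X.toOver ⟶ M.toOver} {Γ : Type} [Fintype Γ]
    {f : Γ → (X.toOver ⟶ X.toOver)} (hrel : Zero.RelationsRestrict C j f) {γ : CH (X.prod X)}
    (h : γ ∈ goodS C j f) (h0 : C.ops.cl _ γ = 0) :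
    ∃ z ∈ CHi (M.prod M) X.dim, γ = C.ops.pull (sqHom j) z := by
  obtain ⟨c, z, hz, rfl⟩ := exists_of_mem_goodS h
  have h1 : ∀ x : W.H X, ∃ m : W.H M, W.pull j m = Zero.pullComb W f c x := by
    intro x
    obtain ⟨m, hm⟩ := exists_pull_of_restriction (C := C) j z hz x
    have h2 : hAct C (∑ i, c i • Zero.graphCls C (f i) + C.pull (sqHom j) z) x = 0 :=
      hAct_of_cl_eq_zero C _ h0 x
    have hm' : hAct C (C.pull (sqHom j) z) x = W.pull j m := hm.symm
    rw [hAct_add_left, hAct_sum_left, hm'] at h2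
    have h3 : Zero.pullComb W f c x =
        ∑ i, hAct C (c i • Zero.graphCls C (f i)) x := by
      unfold Zero.pullComb
      refine Finset.sum_congr rfl fun i _ => ?_
      rw [hAct_smul_left, hAct_graphCls]
    refine ⟨-m, ?_⟩
    rw [h3, eq_neg_of_add_eq_zero_left h2]
    exact map_neg (pullL W j) m
  obtain ⟨z', hz', h4⟩ := hrel c h1
  refine ⟨z' + z, (CHiL (M.prod M) X.dim).add_mem hz' hz, ?_⟩
  rw [h4]
  exact (map_add (C.pull (sqHom j)) z' z).symm

/-- If the `Γ`-invariant correspondences are combinations of the graphs of the `f i` and of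
restrictions of classes on `M × M`, then the `Γ`-invariant homologically trivial correspondences of
`X` form a nilpotent ring. -/
theorem nilInv_of_goodS (j : X.toOver ⟶ M.toOver) (G : Subgroup (SemiAut X)) {Γ : Type}
    [Fintype Γ] (f : Γ → (X.toOver ⟶ X.toOver))
    (hgood : ∀ γ ∈ CHi (X.prod X) X.dim, (∀ g ∈ G, (Desc.sq g).chow γ = γ) → γ ∈ goodS C j f)
    (hM : Spread.NilRing C M) (hrel : Zero.RelationsRestrict C j f) : NilInv C X G := by
  let A : Set (CH (X.prod M)) := {a | ∃ z ∈ CHi (M.prod M) X.dim, a = C.comp (graph C j) z}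
  let B : Set (CH (M.prod X)) := {graphT C j}
  have hAm : ∀ a ∈ A, a ∈ CHi (X.prod M) X.dim := by
    rintro _ ⟨z, hz, rfl⟩
    exact comp_mem' C _ _ (graph_mem j) hz (by omega)
  have hS : IsNilRing C M (CHiL (M.prod M) M.dim) := by
    refine ⟨fun σ hσ τ hτ => C.comp_mem _ _ hσ hτ, ?_⟩
    obtain ⟨N, hN⟩ := hM
    exact ⟨N, fun l hl h => hN l hl h⟩
  have hBA : ∀ a ∈ A, ∀ b ∈ B, C.comp b a ∈ CHiL (M.prod M) M.dim := by
    rintro a ha _ rfl
    exact comp_mem' C _ _ (graphT_mem j) (hAm a ha) (by omega)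
  obtain ⟨N, hN⟩ := hS.nil
  refine ⟨2 * N + 1, fun l hl hx => ?_⟩
  have hthr : ∀ γ ∈ l, γ ∈ through C A B ∧ C.ops.cl _ γ = 0 := by
    intro γ hγ
    obtain ⟨h1, h2, h3⟩ := hx γ hγ
    refine ⟨?_, h2⟩
    obtain ⟨z, hz, rfl⟩ := exists_restriction hrel (hgood γ h1 h3) h2
    exact Submodule.subset_span ⟨_, ⟨z, hz, rfl⟩, _, rfl, pull_sq C j z⟩
  have h1 := compList_mem_span hS hBA N l hl hthr
  have h2 : Submodule.span ℚ {z | ∃ a ∈ A, ∃ b ∈ B, ∃ l' : List (CH (M.prod M)),
        l'.length = N ∧ (∀ σ ∈ l', σ ∈ CHiL (M.prod M) M.dim ∧ C.ops.cl _ σ = 0) ∧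
          z = C.comp (C.comp a (compList C M l')) b} ≤ ⊥ := by
    refine Submodule.span_le.2 ?_
    rintro _ ⟨a, -, b, -, l', hl1, hl2, rfl⟩
    rw [hN l' hl1 hl2, C.comp_zero, C.zero_comp]
    exact Submodule.zero_mem _
  exact (Submodule.mem_bot ℚ).1 (h2 h1)

end Rel

section Main

variable {F K : Type u} [Field F] [Field K] [Algebra F K] {M₀ : SmProjVar F} {r : ℕ} {I : Type}
  [Fintype I] {L : Type v} [Field L] [CharZero L] {W : WeilCohomology.{u, v, w} K L}

/-- **Theorem.** The homologically trivial correspondences on the zero locus of a generic symmetric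
section over an algebraically closed field are nilpotent. -/
theorem nilHom_sym [IsAlgClosed K] {S : Spread.Sections M₀ r I} {a : I → K}
    (ha : AlgebraicIndependent F a)
    {M X : SmProjVar K} (pM : M.toOver.left ⟶ M₀.toOver.left)
    (hM : IsPullback pM M.toOver.hom M₀.toOver.hom (specMap F K)) (j : X.toOver ⟶ M.toOver)
    [IsClosedImmersion j.left] (hX : Spread.IsZeroLocus S a X (j.left ≫ pM))
    (hdim : M.dim = X.dim + r) {Γ : Type} [Fintype Γ] (f : Γ → (X.toOver ⟶ X.toOver))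
    (f₀ : Γ → (M₀.toOver.left ⟶ M₀.toOver.left))
    (hf : ∀ i, (f i).left ≫ j.left ≫ pM = (j.left ≫ pM) ≫ f₀ i)
    (hgr : ∀ y : (X.prod X).toOver.left, ¬ SepAt S (theta (j.left ≫ pM) hX.w y) →
      ∃ i, y ∈ Set.range (gr (f i)).left)
    {C : ChowTheory W} (hC : IsEquivariant C) (hS : Spread.HasSupport C)
    (hN : Spread.NilRing C M) (hrel : Zero.RelationsRestrict C j f) : Desc.NilHom C X := by
  have hA : IsAffineHom (j.left ≫ pM) := isAffineHom_comp pM hM j
  intro γ hγ h0
  obtain ⟨z, hz, rfl⟩ := id hγ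
  obtain ⟨m, b, hb, hba, hgen⟩ := exists_generic_family ha hX z
  have hX' := isZeroLocus_extend hX m b hba
  refine nil_of_finite_orbit hC (galGroup (F := F) b (j.left ≫ pM))
    (nilInv_of_goodS j _ f (fun γ hγ hinv => ?_) hN hrel) _ hγ h0 ?_
  · exact mem_goodS hb pM hM j hX' hdim f f₀ hf
      (fun y hy => hgr y fun h => hy (sepAt_extend h m)) hC hS γ hγ hinv
  · refine finite_orbit_cls (sqPi (galGroup (F := F) b (j.left ≫ pM))) z fun y hy => ?_
    have h1 : (X.prod X).pointDim y = X.dim := by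
      have h1 := hz y hy
      have h2 : (X.prod X).dim = X.dim + X.dim := rfl
      omega
    by_cases hx : SepAt S (theta (j.left ≫ pM) hX.w y)
    · exact (local_package2 hb hX' _ (hasChart_of_sepAt hX' _
        (sepAt_extend hx m))).2.1 y rfl (hgen y hy hx)
    · obtain ⟨i, h2⟩ := hgr y hx
      refine (Set.finite_singleton y).subset ?_
      rintro _ ⟨g, rfl⟩
      exact sq_gr_apply W (f i) g.1 (comm_of_base hX (f i) (f₀ i) (hf i) g.1 g.2.1) y h2 h1

end Main

end

end Pool.Agent.Helper47.Sym
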