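import Mathlib
import Pool.Agent.Helper47.Sym.C
import Pool.Agent.Helper47.Zero.Conseq

/-!
# Direct summands
-/

universe u v w

open CategoryTheory AlgebraicGeometry Limits

namespace Pool.Agent.Helper47.Sym

open Pool.Agent.Helper10 Pool.Agent.Helper10.SmProjVar Pool.Agent.Helper47.Chow
open Pool.Agent.Helper47.Desc Pool.Agent.Helper11.Murre Pool.Agent.Helper47.Spread

attribute [local simp] SmProjVar.lift_fst_assoc SmProjVar.lift_snd_assoc

noncomputable section

variable {K : Type u} [Field K] {L : Type v} [Field L] [CharZero L]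
  {W : WeilCohomology.{u, v, w} K L} {C : ChowTheory W} {X Y : SmProjVar K}

/-- `Γ_g ∘ z = (1 × g)_* z`. -/
lemma comp_graph_right {Z : SmProjVar K} (g : X.toOver ⟶ Y.toOver) (z : CH (Z.prod X)) :
    C.comp z (graph C g) = C.push (idProd Z g) z := by
  have hb := C.base_change (lift (𝟙 X.toOver) g) (p23 Z X Y) (snd Z X)
    (idProd Z (lift (𝟙 X.toOver) g)) (isPullback_snd Z (lift (𝟙 X.toOver) g)) inferInstance (one X)
  have h1 : C.comp z (graph C g) = C.push (p13 Z X Y) (C.mul _ (C.pull (p12 Z X Y) z)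
    (C.pull (p23 Z X Y) (C.push (lift (𝟙 X.toOver) g) (one X)))) := rfl
  rw [h1, hb, C.pull_one, ← C.projection', ← C.push_comp, C.mul_one, ← C.pull_comp]
  have h2 : idProd Z (lift (𝟙 X.toOver) g) ≫ p13 Z X Y = idProd Z g := by
    apply prod_ext <;> simp [idProd, p13]
  have h3 : idProd Z (lift (𝟙 X.toOver) g) ≫ p12 Z X Y = 𝟙 _ := by
    apply prod_ext <;> simp [idProd, p12]
  rw [h2, h3, C.pull_id]

theorem isSummand_of_dominates (h : Zero.Dominates C X Y) : Zero.IsSummand C X Y := by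
  obtain ⟨g, e, he, h, hh, h1⟩ := h
  refine ⟨Y.dim, X.dim, by omega, graph C g, graph_mem g, C.push (lift g (𝟙 X.toOver)) h, ?_, ?_⟩
  · refine C.push_mem _ e X.dim ?_ _ hh
    change e + (X.dim + Y.dim) = X.dim + X.dim
    omega
  · rw [comp_graph_right, ← C.push_comp]
    have h2 : lift g (𝟙 X.toOver) ≫ idProd Y g = g ≫ diag Y := by
      apply prod_ext <;> simp [idProd, Chow.diag]
    have h3 : C.push g h = one Y := h1
    rw [h2, C.push_comp, h3]
    rfl

lemma pow_conj {u : CH (X.prod Y)} {v : CH (Y.prod X)} (h : C.comp v u = C.Δ Y)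
    (γ : CH (Y.prod Y)) (n : ℕ) :
    C.pow (C.comp (C.comp u γ) v) (n + 1) = C.comp (C.comp u (C.pow γ (n + 1))) v := by
  induction n with
  | zero =>
    change C.comp (C.Δ X) _ = C.comp (C.comp u (C.comp (C.Δ Y) γ)) v
    rw [C.Δ_comp, C.Δ_comp]
  | succ n ih =>
    change C.comp (C.pow (C.comp (C.comp u γ) v) (n + 1)) (C.comp (C.comp u γ) v) =
      C.comp (C.comp u (C.comp (C.pow γ (n + 1)) γ)) v
    rw [ih]
    have h1 : C.comp (C.comp (C.comp u (C.pow γ (n + 1))) v) (C.comp (C.comp u γ) v) =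
        C.comp (C.comp u (C.pow γ (n + 1))) (C.comp (C.comp v u) (C.comp γ v)) := by
      simp only [C.comp_assoc]
    rw [h1, h, C.Δ_comp]
    simp only [C.comp_assoc]

/-- Nilpotence passes to direct summands of Tate twists. -/
theorem nilHom_of_isSummand (h : Zero.IsSummand C X Y) (hX : Desc.NilHom C X) :
    Desc.NilHom C Y := by
  obtain ⟨p, q, hpq, u, hu, v, hv, huv⟩ := h
  intro γ hγ h0
  have h1 : C.comp u γ ∈ CHi (X.prod Y) p := comp_mem' C _ _ hu hγ rfl
  have h2 : C.comp (C.comp u γ) v ∈ CHi (X.prod X) X.dim := comp_mem' C _ _ h1 hv (by omega)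
  have h3 : C.ops.cl _ (C.comp (C.comp u γ) v) = 0 :=
    C.cl_comp_of_left _ _ (C.cl_comp_of_right _ _ h0)
  obtain ⟨n, hn⟩ := hX _ h2 h3
  refine ⟨n + 1, ?_⟩
  have h4 : C.pow (C.comp (C.comp u γ) v) (n + 1) = 0 := by
    change C.comp (C.pow _ n) _ = 0
    rw [hn, C.zero_comp]
  rw [pow_conj huv] at h4
  have h5 : C.comp (C.comp v (C.comp (C.comp u (C.pow γ (n + 1))) v)) u =
      C.comp (C.comp (C.comp v u) (C.pow γ (n + 1))) (C.comp v u) := by
    simp only [C.comp_assoc]
  rw [h4, C.comp_zero, C.zero_comp, huv, C.Δ_comp, C.comp_Δ] at h5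
  exact h5.symm

end

section Main

variable {F K : Type u} [Field F] [Field K] [Algebra F K] {M₀ : SmProjVar F} {r : ℕ} {I : Type}
  [Fintype I] {L : Type v} [Field L] [CharZero L] {W : WeilCohomology.{u, v, w} K L}

/-- **Theorem.** The homologically trivial correspondences on the zero locus of a generic symmetric
section over an algebraically closed field are nilpotent. -/
theorem nilHom_symmetric [IsAlgClosed K] (S : Zero.Sections M₀.toOver.left r I) (a : I → K)
    (ha : AlgebraicIndependent F a) (M X : SmProjVar K) (pM : M.toOver.left ⟶ M₀.toOver.left)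
    (hM : IsPullback pM M.toOver.hom M₀.toOver.hom (Zero.specMap F K)) (j : X.toOver ⟶ M.toOver)
    [IsClosedImmersion j.left]
    (hX : Zero.IsZeroLocus S a M₀.toOver.hom (Zero.specMap F K) (j.left ≫ pM) X.toOver.hom)
    (hdim : M.dim = X.dim + r) {Γ : Type} [Fintype Γ] (f : Γ → (X.toOver ⟶ X.toOver))
    (f₀ : Γ → (M₀.toOver.left ⟶ M₀.toOver.left))
    (hf : ∀ i, (f i).left ≫ j.left ≫ pM = (j.left ≫ pM) ≫ f₀ i)
    (hsep : Zero.SeparatesUpTo S X (j.left ≫ pM) f)
    {C : ChowTheory W} (hC : IsEquivariant C) (hS : Zero.HasSupport C) (hN : Zero.NilRing C M)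
    (hrel : Zero.RelationsRestrict C j f) : Desc.NilHom C X := by
  have hX' := Zero.isZeroLocus_old hX
  refine nilHom_sym (S := S.old) ha pM hM j hX' hdim f f₀ hf ?_ hC (Zero.hasSupport_old hS)
    (Zero.nilRing_old hN) hrel
  intro y hy
  by_contra hne
  apply hy
  apply sepAt_of_separatesAt S (theta (j.left ≫ pM) hX'.w) y
  rw [theta_fst, theta_snd]
  apply hsep y
  rintro ⟨i, x, hx⟩
  exact hne ⟨i, x, hx⟩

end Main

end Pool.Agent.Helper47.Sym
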